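import Mathlib

/-!
# Polynomial recurrences whose row sums are `m ^ m`: the linear case

For polynomials `P`, `Q` in two variables let `S = S_{P,Q}` be defined by `S 0 0 = 1`,
`S 0 n = S m 0 = 0` for `m, n ≥ 1`, and
`S (m+1) n = P(m,n) * S m n + Q(m,n) * S m (n-1)` for `m ≥ 0`, `n ≥ 1`.  The pair `(P, Q)` is
admissible if `∑_{n=1}^m S m n = m ^ m` for all `m ≥ 1`.

We show that an admissible pair in which both polynomials have total degree at most `1`
is the pair `P = m`, `Q = m + n`.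
-/

namespace Pool.Agent.Results.MP_97c21f_co.LinearCase

namespace R10RowSums

open MvPolynomial

/-- The system of equations in the parameters `u`, `z`, `e`. -/
theorem core2 (u z e : ℂ) (T : ℕ → ℕ → ℂ) (h00 : T 0 0 = 1) (h0 : ∀ n, T 0 (n + 1) = 0)
    (h1 : ∀ m, T (m + 1) 0 = 0)
    (hrec : ∀ m n : ℕ, T (m + 1) (n + 1) =
      ((-1 / 4 - u + u * z / 4 + z + e) * m + (u - e) * (n + 1) + (1 - u * z) / 4) * T m (n + 1)
      + ((3 - z - e) * m + e * (n + 1) + (1 - e)) * T m n)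
    (hsum : ∀ m : ℕ, 1 ≤ m → ∑ n ∈ Finset.Icc 1 m, T m n = (m : ℂ) ^ m) :
    u = 1 ∧ z = 1 ∧ e = 1 := by
  have hz : ∀ m n : ℕ, m < n → T m n = 0 := by
    intro m
    induction m with
    | zero =>
      intro n hn
      obtain ⟨k, rfl⟩ : ∃ k, n = k + 1 := ⟨n - 1, by omega⟩
      exact h0 k
    | succ m ih =>
      intro n hn
      obtain ⟨k, rfl⟩ : ∃ k, n = k + 1 := ⟨n - 1, by omega⟩
      rw [hrec m k, ih (k + 1) (by omega), ih k (by omega)]
      ring
  have t11 : T 1 1 = 1 := by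
    have h := hrec 0 0
    rw [h00, h0 0] at h
    norm_num at h
    exact h
  have t21 : T 2 1 =
      ((-1 / 4 - u + u * z / 4 + z + e) * 1 + (u - e) * 1 + (1 - u * z) / 4) * T 1 1 := by
    have h := hrec 1 0
    rw [h1 0] at h
    norm_num at h
    linear_combination h
  have t22 : T 2 2 =
      ((3 - z - e) * 1 + e * 2 + (1 - e)) * T 1 1 := by
    have h := hrec 1 1
    rw [hz 1 (1 + 1) (by omega)] at h
    norm_num at h
    linear_combination h
  have t31 : T 3 1 =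
      ((-1 / 4 - u + u * z / 4 + z + e) * 2 + (u - e) * 1 + (1 - u * z) / 4) * T 2 1 := by
    have h := hrec 2 0
    rw [h1 1] at h
    norm_num at h
    linear_combination h
  have t32 : T 3 2 =
      ((-1 / 4 - u + u * z / 4 + z + e) * 2 + (u - e) * 2 + (1 - u * z) / 4) * T 2 2 + ((3 - z - e) * 2 + e * 2 + (1 - e)) * T 2 1 := by
    have h := hrec 2 1
    norm_num at h
    linear_combination h
  have t33 : T 3 3 =
      ((3 - z - e) * 2 + e * 3 + (1 - e)) * T 2 2 := by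
    have h := hrec 2 2
    rw [hz 2 (2 + 1) (by omega)] at h
    norm_num at h
    linear_combination h
  have t41 : T 4 1 =
      ((-1 / 4 - u + u * z / 4 + z + e) * 3 + (u - e) * 1 + (1 - u * z) / 4) * T 3 1 := by
    have h := hrec 3 0
    rw [h1 2] at h
    norm_num at h
    linear_combination h
  have t42 : T 4 2 =
      ((-1 / 4 - u + u * z / 4 + z + e) * 3 + (u - e) * 2 + (1 - u * z) / 4) * T 3 2 + ((3 - z - e) * 3 + e * 2 + (1 - e)) * T 3 1 := by
    have h := hrec 3 1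
    norm_num at h
    linear_combination h
  have t43 : T 4 3 =
      ((-1 / 4 - u + u * z / 4 + z + e) * 3 + (u - e) * 3 + (1 - u * z) / 4) * T 3 3 + ((3 - z - e) * 3 + e * 3 + (1 - e)) * T 3 2 := by
    have h := hrec 3 2
    norm_num at h
    linear_combination h
  have t44 : T 4 4 =
      ((3 - z - e) * 3 + e * 4 + (1 - e)) * T 3 3 := by
    have h := hrec 3 3
    rw [hz 3 (3 + 1) (by omega)] at h
    norm_num at h
    linear_combination h
  have t51 : T 5 1 =
      ((-1 / 4 - u + u * z / 4 + z + e) * 4 + (u - e) * 1 + (1 - u * z) / 4) * T 4 1 := by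
    have h := hrec 4 0
    rw [h1 3] at h
    norm_num at h
    linear_combination h
  have t52 : T 5 2 =
      ((-1 / 4 - u + u * z / 4 + z + e) * 4 + (u - e) * 2 + (1 - u * z) / 4) * T 4 2 + ((3 - z - e) * 4 + e * 2 + (1 - e)) * T 4 1 := by
    have h := hrec 4 1
    norm_num at h
    linear_combination h
  have t53 : T 5 3 =
      ((-1 / 4 - u + u * z / 4 + z + e) * 4 + (u - e) * 3 + (1 - u * z) / 4) * T 4 3 + ((3 - z - e) * 4 + e * 3 + (1 - e)) * T 4 2 := by
    have h := hrec 4 2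
    norm_num at h
    linear_combination h
  have t54 : T 5 4 =
      ((-1 / 4 - u + u * z / 4 + z + e) * 4 + (u - e) * 4 + (1 - u * z) / 4) * T 4 4 + ((3 - z - e) * 4 + e * 4 + (1 - e)) * T 4 3 := by
    have h := hrec 4 3
    norm_num at h
    linear_combination h
  have t55 : T 5 5 =
      ((3 - z - e) * 4 + e * 5 + (1 - e)) * T 4 4 := by
    have h := hrec 4 4
    rw [hz 4 (4 + 1) (by omega)] at h
    norm_num at h
    linear_combination h
  have t61 : T 6 1 =
      ((-1 / 4 - u + u * z / 4 + z + e) * 5 + (u - e) * 1 + (1 - u * z) / 4) * T 5 1 := by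
    have h := hrec 5 0
    rw [h1 4] at h
    norm_num at h
    linear_combination h
  have t62 : T 6 2 =
      ((-1 / 4 - u + u * z / 4 + z + e) * 5 + (u - e) * 2 + (1 - u * z) / 4) * T 5 2 + ((3 - z - e) * 5 + e * 2 + (1 - e)) * T 5 1 := by
    have h := hrec 5 1
    norm_num at h
    linear_combination h
  have t63 : T 6 3 =
      ((-1 / 4 - u + u * z / 4 + z + e) * 5 + (u - e) * 3 + (1 - u * z) / 4) * T 5 3 + ((3 - z - e) * 5 + e * 3 + (1 - e)) * T 5 2 := by
    have h := hrec 5 2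
    norm_num at h
    linear_combination h
  have t64 : T 6 4 =
      ((-1 / 4 - u + u * z / 4 + z + e) * 5 + (u - e) * 4 + (1 - u * z) / 4) * T 5 4 + ((3 - z - e) * 5 + e * 4 + (1 - e)) * T 5 3 := by
    have h := hrec 5 3
    norm_num at h
    linear_combination h
  have t65 : T 6 5 =
      ((-1 / 4 - u + u * z / 4 + z + e) * 5 + (u - e) * 5 + (1 - u * z) / 4) * T 5 5 + ((3 - z - e) * 5 + e * 5 + (1 - e)) * T 5 4 := by
    have h := hrec 5 4
    norm_num at h
    linear_combination h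
  have t66 : T 6 6 =
      ((3 - z - e) * 5 + e * 6 + (1 - e)) * T 5 5 := by
    have h := hrec 5 5
    rw [hz 5 (5 + 1) (by omega)] at h
    norm_num at h
    linear_combination h
  have t71 : T 7 1 =
      ((-1 / 4 - u + u * z / 4 + z + e) * 6 + (u - e) * 1 + (1 - u * z) / 4) * T 6 1 := by
    have h := hrec 6 0
    rw [h1 5] at h
    norm_num at h
    linear_combination h
  have t72 : T 7 2 =
      ((-1 / 4 - u + u * z / 4 + z + e) * 6 + (u - e) * 2 + (1 - u * z) / 4) * T 6 2 + ((3 - z - e) * 6 + e * 2 + (1 - e)) * T 6 1 := by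
    have h := hrec 6 1
    norm_num at h
    linear_combination h
  have t73 : T 7 3 =
      ((-1 / 4 - u + u * z / 4 + z + e) * 6 + (u - e) * 3 + (1 - u * z) / 4) * T 6 3 + ((3 - z - e) * 6 + e * 3 + (1 - e)) * T 6 2 := by
    have h := hrec 6 2
    norm_num at h
    linear_combination h
  have t74 : T 7 4 =
      ((-1 / 4 - u + u * z / 4 + z + e) * 6 + (u - e) * 4 + (1 - u * z) / 4) * T 6 4 + ((3 - z - e) * 6 + e * 4 + (1 - e)) * T 6 3 := by
    have h := hrec 6 3
    norm_num at h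
    linear_combination h
  have t75 : T 7 5 =
      ((-1 / 4 - u + u * z / 4 + z + e) * 6 + (u - e) * 5 + (1 - u * z) / 4) * T 6 5 + ((3 - z - e) * 6 + e * 5 + (1 - e)) * T 6 4 := by
    have h := hrec 6 4
    norm_num at h
    linear_combination h
  have t76 : T 7 6 =
      ((-1 / 4 - u + u * z / 4 + z + e) * 6 + (u - e) * 6 + (1 - u * z) / 4) * T 6 6 + ((3 - z - e) * 6 + e * 6 + (1 - e)) * T 6 5 := by
    have h := hrec 6 5
    norm_num at h
    linear_combination h
  have t77 : T 7 7 =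
      ((3 - z - e) * 6 + e * 7 + (1 - e)) * T 6 6 := by
    have h := hrec 6 6
    rw [hz 6 (6 + 1) (by omega)] at h
    norm_num at h
    linear_combination h
  have F4 : T 4 1 + T 4 2 + T 4 3 + T 4 4 = 256 := by
    have h := hsum 4 (by norm_num)
    norm_num [Finset.sum_Icc_succ_top] at h
    linear_combination h
  have F5 : T 5 1 + T 5 2 + T 5 3 + T 5 4 + T 5 5 = 3125 := by
    have h := hsum 5 (by norm_num)
    norm_num [Finset.sum_Icc_succ_top] at h
    linear_combination h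
  have F6 : T 6 1 + T 6 2 + T 6 3 + T 6 4 + T 6 5 + T 6 6 = 46656 := by
    have h := hsum 6 (by norm_num)
    norm_num [Finset.sum_Icc_succ_top] at h
    linear_combination h
  have F7 : T 7 1 + T 7 2 + T 7 3 + T 7 4 + T 7 5 + T 7 6 + T 7 7 = 823543 := by
    have h := hsum 7 (by norm_num)
    norm_num [Finset.sum_Icc_succ_top] at h
    linear_combination h
  simp only [t41, t42, t43, t44, t31, t32, t33, t21, t22, t11] at F4
  simp only [t51, t52, t53, t54, t55, t41, t42, t43, t44, t31, t32, t33, t21, t22, t11] at F5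
  simp only [t61, t62, t63, t64, t65, t66, t51, t52, t53, t54, t55, t41, t42, t43, t44, t31, t32, t33, t21, t22, t11] at F6
  simp only [t71, t72, t73, t74, t75, t76, t77, t61, t62, t63, t64, t65, t66, t51, t52, t53, t54, t55, t41, t42, t43, t44, t31, t32, t33, t21, t22, t11] at F7
  have hE : 4 * u * z * e - (2 + 4 * u - 5 * (u * z) + 4 * u ^ 2 * z - u ^ 2 * z ^ 2) = 0 := by
    linear_combination (-4) * F4
  have hu : u ≠ 0 := by
    rintro rfl
    norm_num at hE
  by_cases hz0 : z = 0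
  · exfalso
    subst hz0
    have hu2 : u = -1 / 2 := by linear_combination (-1 / 4) * hE
    subst hu2
    have he : e = -2 := by linear_combination (-2) * F5
    subst he
    norm_num at F6
  have huz : u * z ≠ 0 := mul_ne_zero hu hz0
  have h5 :
      - 2 + (u*z) - 4*(u*z)^2 + 5*(u*z)^3 - (4*u) + 3*(4*u)*(u*z) - 6*(4*u)*(u*z)^2 +
      (4*u)^2*(u*z) = 0 := by
    apply mul_left_cancel₀ huz
    linear_combination (exp := 1) ((4 * (u * z)) ^ 2 / 2) * F5 - (- 2*u*z - 141*u^2*z^2 - 4*u^2*z^2*e + 16*u^3*z^2 - 5*u^3*z^3) / 2 * hE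
  have h6 :
      - 4 - 382*(u*z) + 148*(u*z)^2 - 704*(u*z)^3 + 912*(u*z)^4 + 30*(u*z)^5 - 4*(4*u) -
      171*(4*u)*(u*z) + 503*(4*u)*(u*z)^2 - 1077*(4*u)*(u*z)^3 - 51*(4*u)*(u*z)^4 - (4*u)^2 +
      16*(4*u)^2*(u*z) + 161*(4*u)^2*(u*z)^2 + 24*(4*u)^2*(u*z)^3 + 3*(4*u)^3*(u*z) -
      3*(4*u)^3*(u*z)^2 = 0 := by
    apply mul_left_cancel₀ huz
    linear_combination (exp := 1) ((4 * (u * z)) ^ 3 / 2) * F6 - (- 4*u*z - 8*u^2*z - 392*u^2*z^2 - 8*u^2*z^2*e + 88*u^3*z^2 - 16062*u^3*z^3 -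
      804*u^3*z^3*e - 16*u^3*z^3*e^2 + 96*u^4*z^2 + 3044*u^4*z^3 + 192*u^4*z^3*e - 940*u^4*z^4
      - 36*u^4*z^4*e - 288*u^5*z^3 + 172*u^5*z^4 - 26*u^5*z^5) / 2 * hE
  have h7 :
      - 8 - 1028*(u*z) - 55388*(u*z)^2 + 16956*(u*z)^3 - 95760*(u*z)^4 + 128084*(u*z)^5 +
      6964*(u*z)^6 + 180*(u*z)^7 - 12*(4*u) - 928*(4*u)*(u*z) - 22994*(4*u)*(u*z)^2 +
      65946*(4*u)*(u*z)^3 - 149758*(4*u)*(u*z)^4 - 11602*(4*u)*(u*z)^5 - 396*(4*u)*(u*z)^6 -
      6*(4*u)^2 - 129*(4*u)^2*(u*z) + 3648*(4*u)^2*(u*z)^2 + 20834*(4*u)^2*(u*z)^3 +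
      5174*(4*u)^2*(u*z)^4 + 287*(4*u)^2*(u*z)^5 - (4*u)^3 + 53*(4*u)^3*(u*z) +
      605*(4*u)^3*(u*z)^2 - 515*(4*u)^3*(u*z)^3 - 78*(4*u)^3*(u*z)^4 + 7*(4*u)^4*(u*z) -
      22*(4*u)^4*(u*z)^2 + 7*(4*u)^4*(u*z)^3 = 0 := by
    apply mul_left_cancel₀ huz
    linear_combination (exp := 1) ((4 * (u * z)) ^ 4 / 2) * F7 - (- 8*u*z - 32*u^2*z - 1048*u^2*z^2 - 16*u^2*z^2*e - 32*u^3*z - 1680*u^3*z^2 -
      32*u^3*z^2*e - 58012*u^3*z^3 - 2136*u^3*z^3*e - 32*u^3*z^3*e^2 + 1280*u^4*z^2 +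
      21928*u^4*z^3 + 864*u^4*z^3*e - 1798714*u^4*z^4 - 121372*u^4*z^4*e - 4352*u^4*z^4*e^2 -
      64*u^4*z^4*e^3 + 896*u^5*z^2 + 21056*u^5*z^3 + 896*u^5*z^3*e + 440172*u^5*z^4 +
      50480*u^5*z^4*e + 1792*u^5*z^4*e^2 - 132746*u^5*z^5 - 7712*u^5*z^5*e - 224*u^5*z^5*e^2 -
      3712*u^6*z^3 - 70336*u^6*z^4 - 6912*u^6*z^4*e + 40576*u^6*z^5 + 3088*u^6*z^5*e -
      5862*u^6*z^6 - 284*u^6*z^6*e + 6144*u^7*z^4 - 5344*u^7*z^5 + 1564*u^7*z^6 - 154*u^7*z^7) / 2 * hE
  generalize hv : 4 * u = v at h5 h6 h7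
  generalize hw : u * z = w at h5 h6 h7 huz
  have l6 : 2 + w - w^2 - 11*w^3 + 11*w^4 - 2*w^5 + v + 4*v*w^2 - 8*v*w^3 + 3*v*w^4 = 0 := by
    apply mul_left_cancel₀ huz
    linear_combination (w ^ 2 / 2) * h6 - (2*w + 4*w^2 + 188*w^3 + 6*w^4 + 3*v*w^2 - 3*v*w^3) / 2 * h5
  have l7 : 6 - 3*w + 554*w^2 + 142*w^3 - 82*w^4 - 3083*w^5 + 3074*w^6 - 632*w^7 + 24*w^8 + 3*v -
      3*v*w + 292*v*w^2 - 84*v*w^3 + 1198*v*w^4 - 2264*v*w^5 + 879*v*w^6 - 21*v*w^7 = 0 := by
    apply mul_left_cancel₀ huz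
    linear_combination (w ^ 3 / 2) * h7 - (6*w + 546*w^3 + 944*w^4 + 26992*w^5 + 1412*w^6 + 36*w^7 + 6*v*w^2 + 10*v*w^3 + 720*v*w^4
      - 668*v*w^5 - 36*v*w^6 + 7*v^2*w^3 - 22*v^2*w^4 + 7*v^2*w^5) / 2 * h5
  have hD : 12 - 90*w + 459*w^2 - 834*w^3 + 297*w^4 + 612*w^5 - 579*w^6 + 54*w^7 + 99*w^8 - 30*w^9 = 0 := by
    apply mul_left_cancel₀ (pow_ne_zero 3 huz)
    linear_combination (3 - 3*w + 292*w^2 - 84*w^3 + 1198*w^4 - 2264*w^5 + 879*w^6 - 21*w^7) * l6 - (1 + 4*w^2 - 8*w^3 + 3*w^4) * l7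
  have hR : 4 - 22*w + 89*w^2 - 108*w^3 - 81*w^4 + 234*w^5 - 121*w^6 - 8*w^7 + 13*w^8 = 0 := by
    apply mul_left_cancel₀ (pow_ne_zero 3 huz)
    linear_combination (1 + 4*w^2 - 8*w^3 + 3*w^4) ^ 2 * h5 - (w * ((2 + w - w^2 - 11*w^3 + 11*w^4 - 2*w^5 + v + 4*v*w^2 - 8*v*w^3 + 3*v*w^4) - 2 * (2 + w - w^2 - 11*w^3 + 11*w^4 - 2*w^5)) + (- 1 + 3*w - 6*w^2) * (1 + 4*w^2 - 8*w^3 + 3*w^4)) * l6
  have hB : (w - 1) ^ 3 = 0 := by
    linear_combination ((1291/9248) + (12431/83232)*w - (12593/166464)*w^2 - (7331/221952)*w^3 -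
      (533/665856)*w^4) * hD + (- (6185/9248) - (6533/27744)*w + (1319/3264)*w^2 + (1423/73984)*w^3 - (15817/221952)*w^4
      - (205/110976)*w^5) * hR
  have hw1 : w = 1 := by
    have := pow_eq_zero_iff (three_ne_zero) |>.mp hB
    linear_combination this
  subst hw1
  have hv4 : v = 4 := by
    have h : v * (v - 4) = 0 := by linear_combination h5
    rcases mul_eq_zero.mp h with h | h
    · exfalso
      apply hu
      rw [← hv] at h
      linear_combination (1 / 4) * h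
    · linear_combination h
  have hu1 : u = 1 := by
    rw [hv4] at hv
    linear_combination (1 / 4) * hv
  subst hu1
  have hz1 : z = 1 := by linear_combination hw
  subst hz1
  refine ⟨rfl, rfl, ?_⟩
  linear_combination (1 / 4) * hE

/-- Elimination of the parameters. -/
theorem core (a b c d e f : ℂ) (T : ℕ → ℕ → ℂ) (h00 : T 0 0 = 1) (h0 : ∀ n, T 0 (n + 1) = 0)
    (h1 : ∀ m, T (m + 1) 0 = 0)
    (hrec : ∀ m n : ℕ, T (m + 1) (n + 1) =
      (a * m + b * (n + 1) + c) * T m (n + 1) + (d * m + e * (n + 1) + f) * T m n)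
    (hsum : ∀ m : ℕ, 1 ≤ m → ∑ n ∈ Finset.Icc 1 m, T m n = (m : ℂ) ^ m) :
    a = 1 ∧ b = 0 ∧ c = 0 ∧ d = 1 ∧ e = 1 ∧ f = 0 := by
  have hz : ∀ m n : ℕ, m < n → T m n = 0 := by
    intro m
    induction m with
    | zero =>
      intro n hn
      obtain ⟨k, rfl⟩ : ∃ k, n = k + 1 := ⟨n - 1, by omega⟩
      exact h0 k
    | succ m ih =>
      intro n hn
      obtain ⟨k, rfl⟩ : ∃ k, n = k + 1 := ⟨n - 1, by omega⟩
      rw [hrec m k, ih (k + 1) (by omega), ih k (by omega)]
      ring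
  have t11 : T 1 1 = e + f := by
    have h := hrec 0 0
    rw [h00, h0 0] at h
    norm_num at h
    exact h
  have F1 : e + f = 1 := by
    have h := hsum 1 le_rfl
    norm_num at h
    rw [t11] at h
    exact h
  rw [F1] at t11
  have t21 : T 2 1 = (a + b + c) * T 1 1 := by
    have h := hrec 1 0
    rw [h1 0] at h
    norm_num at h
    linear_combination h
  have t22 : T 2 2 = (d + e * 2 + f) * T 1 1 := by
    have h := hrec 1 1
    rw [hz 1 (1 + 1) (by omega)] at h
    norm_num at h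
    linear_combination h
  have t31 : T 3 1 = (a * 2 + b * 1 + c) * T 2 1 := by
    have h := hrec 2 0
    rw [h1 1] at h
    norm_num at h
    linear_combination h
  have t32 : T 3 2 = (a * 2 + b * 2 + c) * T 2 2 + (d * 2 + e * 2 + f) * T 2 1 := by
    have h := hrec 2 1
    norm_num at h
    linear_combination h
  have t33 : T 3 3 = (d * 2 + e * 3 + f) * T 2 2 := by
    have h := hrec 2 2
    rw [hz 2 (2 + 1) (by omega)] at h
    norm_num at h
    linear_combination h
  have F2 : T 2 1 + T 2 2 = 4 := by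
    have h := hsum 2 (by norm_num)
    norm_num [Finset.sum_Icc_succ_top] at h
    linear_combination h
  have F3 : T 3 1 + T 3 2 + T 3 3 = 27 := by
    have h := hsum 3 (by norm_num)
    norm_num [Finset.sum_Icc_succ_top] at h
    linear_combination h
  simp only [t22, t21, t11] at F2
  simp only [t33, t32, t31, t22, t21, t11] at F3
  obtain ⟨u, hu⟩ : ∃ u, u = b + e := ⟨_, rfl⟩
  obtain ⟨z, hz'⟩ : ∃ z, z = 3 - d - e := ⟨_, rfl⟩
  have hf : f = 1 - e := by linear_combination F1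
  have hb : b = u - e := by linear_combination -hu
  have hd : d = 3 - z - e := by linear_combination hz'
  subst hf hb hd
  have hc : c = 3 - a - (u - e) - (3 - z - e) - e := by linear_combination F2
  subst hc
  have ha : a = -1 / 4 - u + u * z / 4 + z + e := by linear_combination (1 / 4) * F3
  subst ha
  have key := core2 u z e T h00 h0 h1 (by
    intro m n
    rw [hrec m n]
    ring) hsum
  obtain ⟨h1, h2, h3⟩ := key
  subst h1 h2 h3
  norm_num

/-- A polynomial in two variables of total degree at most one. -/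
theorem linear_form (P : MvPolynomial (Fin 2) ℂ) (h : P.totalDegree ≤ 1) :
    ∃ a b c : ℂ, P = C a * X 0 + C b * X 1 + C c := by
  refine ⟨P.coeff (Finsupp.single 0 1), P.coeff (Finsupp.single 1 1), P.coeff 0, ?_⟩
  ext s
  by_cases hs : ∑ i, s i ≤ 1
  · rw [Fin.sum_univ_two] at hs
    have h3 : s = 0 ∨ s = Finsupp.single 0 1 ∨ s = Finsupp.single 1 1 := by
      rcases Nat.eq_zero_or_pos (s 0) with h0 | h0
      · rcases Nat.eq_zero_or_pos (s 1) with h1 | h1
        · left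
          ext i
          fin_cases i <;> simp [h0, h1]
        · right; right
          ext i
          fin_cases i
          · simp [h0]
          · simp; omega
      · right; left
        ext i
        fin_cases i
        · simp; omega
        · simp; omega
    have e1 : (Finsupp.single 0 1 : Fin 2 →₀ ℕ) ≠ Finsupp.single 1 1 := by
      intro h
      have := DFunLike.congr_fun h 0
      simp at this
    have e2 : (0 : Fin 2 →₀ ℕ) ≠ Finsupp.single 0 1 := by
      intro h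
      have := DFunLike.congr_fun h 0
      simp at this
    have e3 : (0 : Fin 2 →₀ ℕ) ≠ Finsupp.single 1 1 := by
      intro h
      have := DFunLike.congr_fun h 1
      simp at this
    rcases h3 with rfl | rfl | rfl
    · simp [coeff_C_mul, coeff_X', coeff_C]
    · simp [coeff_C_mul, coeff_X', coeff_C, e1.symm, e2]
    · simp [coeff_C_mul, coeff_X', coeff_C, e1, e3]
  · have hd : P.totalDegree < ∑ i ∈ s.support, s i := by
      have : ∑ i ∈ s.support, s i = ∑ i, s i := by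
        apply Finset.sum_subset (Finset.subset_univ _)
        intro i _ hi
        simpa using hi
      omega
    rw [coeff_eq_zero_of_totalDegree_lt hd]
    have h0 : s ≠ 0 := by
      rintro rfl
      simp at hs
    have h1 : Finsupp.single 0 1 ≠ s := by
      rintro rfl
      simp [Fin.sum_univ_two] at hs
    have h2 : Finsupp.single 1 1 ≠ s := by
      rintro rfl
      simp [Fin.sum_univ_two] at hs
    simp [coeff_C_mul, coeff_X', coeff_C, h0.symm, h1, h2]

end R10RowSums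

/-- The value `P(m, n)` of a polynomial in two variables. -/
noncomputable def RowSums.val (P : MvPolynomial (Fin 2) ℂ) (m n : ℕ) : ℂ :=
  MvPolynomial.eval ![(m : ℂ), (n : ℂ)] P

/-- The function `S = S_{P,Q}` of the problem. -/
noncomputable def RowSums.S (P Q : MvPolynomial (Fin 2) ℂ) : ℕ → ℕ → ℂ
  | 0, 0 => 1
  | 0, _ + 1 => 0
  | _ + 1, 0 => 0
  | m + 1, n + 1 => RowSums.val P m (n + 1) * RowSums.S P Q m (n + 1)
      + RowSums.val Q m (n + 1) * RowSums.S P Q m n

/-- `(P, Q)` is admissible: the row sums of `S` are `m ^ m`. -/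
def RowSums.Admissible (P Q : MvPolynomial (Fin 2) ℂ) : Prop :=
  ∀ m : ℕ, 1 ≤ m → ∑ n ∈ Finset.Icc 1 m, RowSums.S P Q m n = (m : ℂ) ^ m

open MvPolynomial in
/-- Every admissible pair of polynomials of total degree at most one is `(m, m + n)`. -/
theorem result (P Q : MvPolynomial (Fin 2) ℂ) (hP : P.totalDegree ≤ 1) (hQ : Q.totalDegree ≤ 1)
    (h : RowSums.Admissible P Q) : P = X 0 ∧ Q = X 0 + X 1 := by
  obtain ⟨a, b, c, rfl⟩ := R10RowSums.linear_form P hP
  obtain ⟨d, e, f, rfl⟩ := R10RowSums.linear_form Q hQ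
  have key := R10RowSums.core a b c d e f
    (RowSums.S (C a * X 0 + C b * X 1 + C c) (C d * X 0 + C e * X 1 + C f))
    (by rw [RowSums.S]) (fun n => by rw [RowSums.S]) (fun m => by rw [RowSums.S])
    (fun m n => by
      rw [RowSums.S]
      simp [RowSums.val]) h
  obtain ⟨rfl, rfl, rfl, rfl, rfl, rfl⟩ := key
  constructor <;> simp

end Pool.Agent.Results.MP_97c21f_co.LinearCase
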